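import Pool.Agent.W999.SH.Conj
import Pool.Agent.W623.SecH.Stm2

/-! # The decomposition group of a place above `t = 0` surjects onto the Galois group of the
constants -/

open Polynomial

namespace W999.SH

open Pool.Agent.W623.SecC Pool.Agent.W623.SecH

universe u v w

section unit

variable {C : Type*} {kb : Type*} [Field C] [Field kb] (ι : C →+* kb) (t : kb)
  (V : ValuationSubring kb) (hV : ∀ c, ι c ∈ V) (ht : t ∈ V.nonunits)

include hV ht in
lemma eval_mem (q : C[X]) : q.eval₂ ι t ∈ V := by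
  rw [eval₂_eq_sum_range]
  refine sum_mem fun i _ => mul_mem (hV _) (pow_mem (V.nonunits_subset ht) _)

include hV ht in
lemma unit_part (q : C[X]) (hq : q.coeff 0 ≠ 0) : IsU V (q.eval₂ ι t) := by
  have h1 : q.eval₂ ι t = (divX q).eval₂ ι t * t + ι (q.coeff 0) := by
    conv_lhs => rw [← divX_mul_X_add q]
    rw [eval₂_add, eval₂_mul, eval₂_X, eval₂_C]
  have h2 : (divX q).eval₂ ι t * t ∈ V.nonunits := by
    rw [mul_comm]
    exact W327.SecC.nonunits_mul_left V ht (eval_mem ι t V hV ht _)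
  have h3 : q.eval₂ ι t ∉ V.nonunits := by
    intro h
    have h4 : ι (q.coeff 0) ∈ V.nonunits := by
      have h5 := V.nonunits.sub_mem h h2
      rwa [h1, add_sub_cancel_left] at h5
    rcases (V.mem_nonunits_iff_or).1 h4 with h5 | h5
    · exact hq ((map_eq_zero ι).1 h5)
    · rw [← map_inv₀] at h5
      exact h5 (hV _)
  rw [ValuationSubring.mem_nonunits_iff_or, not_or, not_not] at h3
  exact ⟨h3.1, eval_mem ι t V hV ht q, h3.2⟩

lemma exists_fact (P : C[X]) (hP : P ≠ 0) : ∃ (m : ℕ) (q : C[X]), P = X ^ m * q ∧ q.coeff 0 ≠ 0 := by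
  obtain ⟨q, hq, hq'⟩ := exists_eq_pow_rootMultiplicity_mul_and_not_dvd P hP 0
  rw [C_0, sub_zero] at hq hq'
  refine ⟨_, q, hq, fun h => hq' (X_dvd_iff.2 h)⟩

include ht in
lemma pow_div_mem (ht0 : t ≠ 0) (m n : ℕ) : t ^ m / t ^ n ∈ V ↔ n ≤ m := by
  constructor
  · intro h
    by_contra hlt
    push Not at hlt
    obtain ⟨d, hd⟩ := Nat.exists_eq_add_of_lt hlt
    have h1 : t ^ m / t ^ n = (t ^ (d + 1))⁻¹ := by
      rw [hd, add_assoc, pow_add]
      field_simp
    have h2 : t ^ (d + 1) ∈ V.nonunits := by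
      rw [pow_succ, mul_comm]
      exact W327.SecC.nonunits_mul_left V ht (pow_mem (V.nonunits_subset ht) _)
    rw [h1] at h
    rcases (V.mem_nonunits_iff_or).1 h2 with h3 | h3
    · exact pow_ne_zero _ ht0 h3
    · exact h3 h
  · intro h
    obtain ⟨d, rfl⟩ := Nat.exists_eq_add_of_le h
    rw [pow_add, mul_div_cancel_left₀ _ (pow_ne_zero _ ht0)]
    exact pow_mem (V.nonunits_subset ht) _

include hV ht in
lemma ratio_mem (ht0 : t ≠ 0) (m n : ℕ) (p q : C[X]) (hp : p.coeff 0 ≠ 0) (hq : q.coeff 0 ≠ 0) :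
    (X ^ m * p).eval₂ ι t / (X ^ n * q).eval₂ ι t ∈ V ↔ n ≤ m := by
  rw [← pow_div_mem t V ht ht0 m n]
  have hpu := unit_part ι t V hV ht p hp
  have hqu := unit_part ι t V hV ht q hq
  have h1 : (X ^ m * p).eval₂ ι t / (X ^ n * q).eval₂ ι t =
      (t ^ m / t ^ n) * (p.eval₂ ι t / q.eval₂ ι t) := by
    rw [eval₂_mul, eval₂_mul, eval₂_X_pow, eval₂_X_pow, mul_div_mul_comm]
  have h2 : p.eval₂ ι t / q.eval₂ ι t ∈ V := by
    rw [div_eq_mul_inv]
    exact mul_mem hpu.2.1 hqu.2.2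
  have h3 : q.eval₂ ι t / p.eval₂ ι t ∈ V := by
    rw [div_eq_mul_inv]
    exact mul_mem hqu.2.1 hpu.2.2
  rw [h1]
  refine ⟨fun h => ?_, fun h => mul_mem h h2⟩
  have h4 := mul_mem h h3
  rwa [mul_assoc, div_mul_div_cancel₀ hqu.1, div_self hpu.1, mul_one] at h4

end unit

theorem trans (hREP : REPKT.{u, w}) : TRANS.{u, w} := by
  intro K k kb _ _ _ _ _ _ _ _ _ t htr hadj V hV ht σ
  have hck : CharZero k := charZero_of_injective_algebraMap (algebraMap K k).injective
  set N := IntermediateField.adjoin k {a : kb | IsAlgebraic K a} with hN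
  have hcN : CharZero N := charZero_of_injective_algebraMap (algebraMap k N).injective
  have hcl : IsAlgClosed kb := IsAlgClosure.isAlgClosed k
  have halgk : Algebra.IsAlgebraic k kb := IsAlgClosure.isAlgebraic
  have halg : Algebra.IsAlgebraic N kb := Algebra.IsAlgebraic.tower_top (K := k) N
  have hclN : IsAlgClosure N kb := ⟨hcl, halg⟩
  have ht0 : algebraMap k kb t ≠ 0 := by
    rw [Ne, map_eq_zero]
    rintro rfl
    exact htr isAlgebraic_zero
  set ι := algebraMap (algebraicClosure K kb) kb with hι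
  have hιa : ∀ c, IsAlgebraic K (ι c) := fun c => mem_algebraicClosure_iff.1 c.2
  have hsig : ∀ (ρ : kb ≃ₐ[k] kb) (a : kb), IsAlgebraic K a → IsAlgebraic K (ρ a) := by
    intro ρ a ha
    exact ha.algHom ((ρ : kb →ₐ[k] kb).restrictScalars K)
  set W : ValuationSubring kb := V.comap ((σ.symm : kb →ₐ[k] kb) : kb →+* kb) with hW
  have hWm : ∀ z, z ∈ W ↔ σ.symm z ∈ V := fun z => Iff.rfl
  have htW : algebraMap k kb t ∈ W.nonunits := by
    rw [ValuationSubring.mem_nonunits_iff_or, hWm, map_inv₀, σ.symm.commutes]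
    exact (V.mem_nonunits_iff_or).1 ht
  have hcW : ∀ c, ι c ∈ W := fun c => hV _ (hsig σ.symm _ (hιa c))
  have hcV : ∀ c, ι c ∈ V := fun c => hV _ (hιa c)
  obtain ⟨g, hg⟩ := conj_of_inter N kb V W (by
    rintro ⟨z, hz⟩
    change z ∈ V ↔ z ∈ W
    obtain ⟨P, Q, hQ0, -, hz2⟩ := hREP K k kb t hadj z hz
    by_cases hP0 : P = 0
    · rw [hz2, hP0, eval₂_zero, zero_div]
      exact ⟨fun _ => zero_mem _, fun _ => zero_mem _⟩
    · obtain ⟨m, p, rfl, hp⟩ := exists_fact P hP0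
      obtain ⟨n, q, rfl, hq⟩ := exists_fact Q hQ0
      rw [hz2, ratio_mem ι _ V hcV ht ht0 m n p q hp hq, ratio_mem ι _ W hcW htW ht0 m n p q hp hq])
  have hgN : ∀ a : kb, IsAlgebraic K a → g a = a := by
    intro a ha
    exact g.commutes (⟨a, IntermediateField.subset_adjoin k _ ha⟩ : N)
  refine ⟨σ.trans (g.restrictScalars k).symm, ?_, ?_⟩
  · intro z
    change g.symm (σ z) ∈ V ↔ z ∈ V
    rw [← hg, g.apply_symm_apply, hWm, σ.symm_apply_apply]
  · intro a ha
    change g.symm (σ a) = σ a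
    rw [AlgEquiv.symm_apply_eq]
    exact (hgN _ (hsig σ a ha)).symm

end W999.SH
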