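import Pool.Agent.W623.SecF.Dec

/-! # Conjugacy of the extensions of a valuation ring to the algebraic closure -/

open Polynomial
open scoped Pointwise

namespace W999.SH

open Pool.Agent.W623.SecC Pool.Agent.W623.SecD Pool.Agent.W623.SecF

universe u w

open W327.SecC (exists_den nonunits_mul_left)

section val

variable {A k : Type u} {kb : Type w} [CommRing A] [IsDomain A] [ValuationRing A] [Field k]
    [Field kb] [Algebra A k] [Algebra k kb] [Algebra A kb] [IsScalarTower A k kb]
    [IsFractionRing A k] [CharZero k] [IsAlgClosure k kb] (V W : ValuationSubring kb)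
    (hV : ∀ a : A, algebraMap A kb a ∈ V)
    (hm : ∀ a ∈ IsLocalRing.maximalIdeal A, algebraMap A kb a ∈ V.nonunits)
    (hV' : ∀ a : A, algebraMap A kb a ∈ W)
    (hm' : ∀ a ∈ IsLocalRing.maximalIdeal A, algebraMap A kb a ∈ W.nonunits)

include hV hm hV' in
/-- an automorphism which respects the nonunits among the integral elements maps `V` to `W` -/
lemma map_mem (g : kb ≃ₐ[k] kb)
    (hg : ∀ x : integralClosure A kb, g x ∈ W.nonunits → (x : kb) ∈ V.nonunits) :
    ∀ x ∈ V, g x ∈ W := by
  intro x hx
  have hinj : Function.Injective (algebraMap A kb) := by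
    rw [IsScalarTower.algebraMap_eq A k kb]
    exact (algebraMap k kb).injective.comp (IsFractionRing.injective A k)
  have halg : IsAlgebraic A x :=
    (IsFractionRing.isAlgebraic_iff A k kb).2
      ((IsAlgClosure.isAlgebraic (R := k) (K := kb)).isAlgebraic x)
  obtain ⟨f, hf, i, hi⟩ := exists_prim' hinj x halg
  obtain ⟨s, hs, hsx⟩ := exists_den V A x hx _ (f.map (algebraMap A (integralClosure A kb)))
    le_rfl (by rw [aeval_map_algebraMap, hf]) ⟨i, by
      rw [coeff_map]
      change algebraMap A kb (f.coeff i) ∉ V.nonunits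
      intro h
      have h' := (nonunit_iff V hV hm (f.coeff i)).1 h
      rw [IsLocalRing.mem_maximalIdeal] at h'
      exact h' hi⟩
  have hint : ∀ b : integralClosure A kb, g (b : kb) ∈ W := by
    intro b
    have h1 : IsIntegral A (g (b : kb)) :=
      b.2.map ((g : kb →ₐ[k] kb).restrictScalars A)
    exact int_mem W hV' ⟨_, h1⟩
  have hgs : g (s : kb) ∉ W.nonunits := fun h => hs (hg s h)
  have hu : IsU W (g (s : kb)) := by
    rw [ValuationSubring.mem_nonunits_iff_or, not_or, not_not] at hgs
    exact ⟨hgs.1, hint s, hgs.2⟩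
  have h1 : g x = g ((s : kb) * x) * (g (s : kb))⁻¹ := by
    rw [map_mul, mul_comm (g (s : kb)), mul_assoc, mul_inv_cancel₀ hu.1, mul_one]
  rw [h1]
  exact mul_mem (hint ⟨_, hsx⟩) hu.2.2

include hV hm in
lemma exists_prime : ∃ P : Ideal (integralClosure A kb), P.IsPrime ∧
    P.under A = IsLocalRing.maximalIdeal A ∧
    ∀ x : integralClosure A kb, x ∈ P ↔ (x : kb) ∈ V.nonunits := by
  set P : Ideal (integralClosure A kb) :=
    (IsLocalRing.maximalIdeal V).comap (((algebraMap (integralClosure A kb) kb).codRestrict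
      V.toSubring (int_mem V hV)) : integralClosure A kb →+* V) with hPdef
  have hPmem : ∀ x : integralClosure A kb, x ∈ P ↔ (x : kb) ∈ V.nonunits := by
    intro x
    exact (V.coe_mem_nonunits_iff (a := ⟨(x : kb), int_mem V hV x⟩)).symm
  have hPp : P.IsPrime := Ideal.comap_isPrime _ _
  refine ⟨P, hPp, ?_, hPmem⟩
  ext a
  rw [Ideal.under_def, Ideal.mem_comap, hPmem, ← nonunit_iff V hV hm]
  rfl

include hV hm hV' hm' in
theorem exists_conj : ∃ g : kb ≃ₐ[k] kb, ∀ x, g x ∈ W ↔ x ∈ V := by
  have := smulComm A k kb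
  have := isInv A k kb
  let _ : TopologicalSpace (integralClosure A kb) := ⊥
  have : DiscreteTopology (integralClosure A kb) := ⟨rfl⟩
  have : ContinuousSMul (kb ≃ₐ[k] kb) (integralClosure A kb) := by
    rw [continuousSMul_iff_stabilizer_isOpen]
    intro x
    have h1 := stabilizer_isOpen_of_isIntegral (K := k) (x : kb)
    convert h1 using 2
    ext g
    rw [MulAction.mem_stabilizer_iff, MulAction.mem_stabilizer_iff]
    constructor
    · intro h
      exact congrArg (fun z : integralClosure A kb => (z : kb)) h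
    · intro h
      exact Subtype.ext h
  obtain ⟨P, hP, hPA, hPmem⟩ := exists_prime V hV hm
  obtain ⟨Q, hQ, hQA, hQmem⟩ := exists_prime W hV' hm'
  obtain ⟨g, hg⟩ := Algebra.IsInvariant.exists_smul_of_under_eq_of_profinite (A := A)
    (B := integralClosure A kb) (G := (kb ≃ₐ[k] kb)) P Q (hPA.trans hQA.symm)
  have hg1 : ∀ x : integralClosure A kb, g (x : kb) ∈ W.nonunits ↔ (x : kb) ∈ V.nonunits := by
    intro x
    rw [← hPmem, ← Ideal.smul_mem_pointwise_smul_iff (a := g), ← hg, hQmem]
    rfl
  refine ⟨g, fun x => ⟨fun h => ?_, map_mem V W hV hm hV' g (fun x => (hg1 x).1) x⟩⟩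
  have h5 := map_mem W V hV' hm' hV g.symm (fun x hx => by
    have h3 : IsIntegral A (g.symm (x : kb)) :=
      x.2.map ((g.symm : kb →ₐ[k] kb).restrictScalars A)
    have h4 := (hg1 ⟨_, h3⟩).2 hx
    change g (g.symm (x : kb)) ∈ _ at h4
    rwa [g.apply_symm_apply] at h4) _ h
  rwa [g.symm_apply_apply] at h5

end val

/-- **two valuation rings of the algebraic closure of `N` with the same intersection with `N` are
conjugate** -/
theorem conj_of_inter (N : Type u) (kb : Type w) [Field N] [CharZero N] [Field kb] [Algebra N kb]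
    [IsAlgClosure N kb] (V W : ValuationSubring kb)
    (h : ∀ n : N, algebraMap N kb n ∈ V ↔ algebraMap N kb n ∈ W) :
    ∃ g : kb ≃ₐ[N] kb, ∀ x, g x ∈ W ↔ x ∈ V := by
  set O : ValuationSubring N := V.comap (algebraMap N kb) with hO
  letI : Algebra O kb := ((algebraMap N kb).comp (algebraMap O N)).toAlgebra
  haveI : IsScalarTower O N kb := IsScalarTower.of_algebraMap_eq fun _ => rfl
  have hmap : ∀ a : O, algebraMap O kb a = algebraMap N kb (a : N) := fun _ => rfl
  have hmax : ∀ a ∈ IsLocalRing.maximalIdeal O, (a : N) = 0 ∨ (a : N)⁻¹ ∉ O := by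
    intro a ha
    exact (O.mem_nonunits_iff_or).1 ((O.coe_mem_nonunits_iff (a := a)).2 ha)
  refine exists_conj (A := O) (k := N) V W (fun a => a.2) ?_ (fun a => (h _).1 a.2) ?_
  · intro a ha
    rw [hmap, V.mem_nonunits_iff_or]
    rcases hmax a ha with h1 | h1
    · left; rw [h1, map_zero]
    · right; rw [← map_inv₀]; exact h1
  · intro a ha
    rw [hmap, W.mem_nonunits_iff_or]
    rcases hmax a ha with h1 | h1
    · left; rw [h1, map_zero]
    · right; rw [← map_inv₀, ← h]; exact h1

end W999.SH
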